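import Pool.Agent.MP_fcd29e_an.H81.Spec2

/-! The pointwise four-point inequality for the logarithm of the distance (row D5a). -/

set_option autoImplicit false

namespace Pool.Agent.MP_fcd29e_an.H19

open Pool.Agent.MP_fcd29e_an.H81 MeasureTheory Complex Set Filter Topology Metric Asymptotics
open scoped ContDiff ComplexConjugate ENNReal NNReal

noncomputable section

variable {N : ℕ}

theorem log_le_add {g a e d : ℝ} (hd : 0 < d) (hg : 0 < g) (ha : d / 2 ≤ a) (he : 0 ≤ e)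
    (h : g ≤ a + e) : Real.log g ≤ Real.log a + 2 * e / d := by
  have ha0 : 0 < a := by linarith
  have h1 := Real.log_le_sub_one_of_pos (div_pos hg ha0)
  rw [Real.log_div hg.ne' ha0.ne'] at h1
  have h2 : g / a - 1 ≤ 2 * e / d := by
    rw [div_sub_one ha0.ne', div_le_div_iff₀ ha0 hd]
    nlinarith
  linarith

theorem log_four {a₁ a₂ a₃ a₄ d δ : ℝ} (hd : 0 < d) (h1 : d / 2 ≤ a₁) (h2 : d / 2 ≤ a₂)
    (h3 : d / 2 ≤ a₃) (h4 : d / 2 ≤ a₄) (hδ : 0 ≤ δ) (h : a₁ * a₂ * a₃ * a₄ ≤ d ^ 4 * (1 + δ)) :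
    Real.log a₁ + Real.log a₂ + Real.log a₃ + Real.log a₄ ≤ 4 * Real.log d + δ := by
  have p1 : 0 < a₁ := by linarith
  have p2 : 0 < a₂ := by linarith
  have p3 : 0 < a₃ := by linarith
  have p4 : 0 < a₄ := by linarith
  have h5 := Real.log_le_log (by positivity) h
  rw [Real.log_mul (by positivity) p4.ne', Real.log_mul (by positivity) p3.ne',
    Real.log_mul p1.ne' p2.ne', Real.log_mul (by positivity) (by positivity), Real.log_pow] at h5
  have h6 := Real.log_le_sub_one_of_pos (show 0 < 1 + δ by positivity)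
  push_cast at h5
  linarith

theorem one_dir {K : Set (E N)} {p n w u : E N} {l b c : ℂ} (hpos : 0 < ‖l‖ * ‖n‖)
    (hd : 0 < infDist (p + l • n) K)
    (h : (fun t : ℝ => infDist (p + t • w + t ^ 2 • (c • n)) K) =o[𝓝 0] fun t => t ^ 2)
    (hu : u = 0) {ε : ℝ} (hε : 0 < ε) :
    ∀ᶠ t : ℝ in 𝓝 0, 0 < infDist (p + l • n + t • (w + b • n) + t ^ 2 • u) K ∧
      ‖l‖ * ‖n‖ / 2 ≤ ‖l + (t : ℂ) * b - (t : ℂ) ^ 2 * c‖ * ‖n‖ ∧
      infDist (p + l • n + t • (w + b • n) + t ^ 2 • u) K ≤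
        ‖l + (t : ℂ) * b - (t : ℂ) ^ 2 * c‖ * ‖n‖ + ε * t ^ 2 := by
  subst hu
  have c1 : Continuous fun t : ℝ => infDist (p + l • n + t • (w + b • n) + t ^ 2 • (0 : E N)) K :=
    (continuous_infDist_pt K).comp (by fun_prop)
  have c2 : Continuous fun t : ℝ => ‖l + (t : ℂ) * b - (t : ℂ) ^ 2 * c‖ * ‖n‖ := by fun_prop
  have e1 := (c1.tendsto 0).eventually_const_lt (u := 0) (by simpa using hd)
  have e2 := (c2.tendsto 0).eventually_const_le (u := ‖l‖ * ‖n‖ / 2) (by simpa using hpos)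
  filter_upwards [e1, e2, h.def hε] with t h1 h2 h3
  refine ⟨h1, h2, ?_⟩
  have h4 := infDist_le_infDist_add_dist (s := K)
    (x := p + l • n + t • (w + b • n) + t ^ 2 • (0 : E N)) (y := p + t • w + t ^ 2 • (c • n))
  have h5 : p + l • n + t • (w + b • n) + t ^ 2 • (0 : E N) - (p + t • w + t ^ 2 • (c • n)) =
      (l + (t : ℂ) * b - (t : ℂ) ^ 2 * c) • n := by
    ext j
    simp only [PiLp.add_apply, PiLp.sub_apply, PiLp.smul_apply, smul_eq_mul, real_smul,
      PiLp.zero_apply]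
    push_cast
    ring
  rw [dist_eq_norm, h5, norm_smul] at h4
  rw [Real.norm_of_nonneg infDist_nonneg, Real.norm_of_nonneg (sq_nonneg t)] at h3
  linarith

theorem core {K : Set (E N)} {p n w : E N} {l b c : ℂ} (hpos : 0 < ‖l‖ * ‖n‖)
    (hd : infDist (p + l • n) K = ‖l‖ * ‖n‖)
    (h1 : (fun t : ℝ => infDist (p + t • w + t ^ 2 • (c • n)) K) =o[𝓝 0] fun t => t ^ 2)
    (h2 : (fun t : ℝ => infDist (p + t • (I • w) + t ^ 2 • ((-c) • n)) K) =o[𝓝 0] fun t => t ^ 2)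
    {η : ℝ} (hη : 0 < η) : ∀ᶠ r in 𝓝[>] (0 : ℝ), -(η * r ^ 2) ≤
      S4 (fun z => -Real.log (infDist z K)) (p + l • n) (w + b • n) 0 r := by
  have hl : 0 < ‖l‖ := (norm_nonneg l).lt_of_ne fun h => by simp [← h] at hpos
  have hε : 0 < η * (‖l‖ * ‖n‖) / 16 := by positivity
  have e1 := one_dir (b := b) hpos (hd ▸ hpos) h1 rfl hε
  have e2 := one_dir (b := I * b) (u := -0) hpos (hd ▸ hpos) h2 neg_zero hε
  have hn : Tendsto (fun t : ℝ => -t) (𝓝 0) (𝓝 0) := by
    simpa using (continuous_neg.tendsto (0 : ℝ))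
  have c3 : Continuous fun t : ℝ =>
      t ^ 2 * ‖2 * l ^ 2 * c ^ 2 + (t : ℂ) ^ 4 * c ^ 4 - (2 * l * c + b ^ 2) ^ 2‖ / ‖l‖ ^ 4 := by
    fun_prop
  have e3 := (c3.tendsto 0).eventually_le_const (u := η / 2) (by simpa using hη)
  refine Eventually.filter_mono nhdsWithin_le_nhds ?_
  filter_upwards [e1, hn.eventually e1, e2, hn.eventually e2, e3] with r a1 a2 a3 a4 a5
  have hI : I • (w + b • n) = I • w + (I * b) • n := by rw [smul_add, smul_smul]
  have b1 := log_le_add hpos a1.1 a1.2.1 (by positivity) a1.2.2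
  have b2 := log_le_add hpos a2.1 a2.2.1 (by positivity) a2.2.2
  have b3 := log_le_add hpos a3.1 a3.2.1 (by positivity) a3.2.2
  have b4 := log_le_add hpos a4.1 a4.2.1 (by positivity) a4.2.2
  set Q := 2 * l ^ 2 * c ^ 2 + (r : ℂ) ^ 4 * c ^ 4 - (2 * l * c + b ^ 2) ^ 2 with hQ
  have b5 := log_four (δ := r ^ 4 * ‖Q‖ / ‖l‖ ^ 4) hpos a1.2.1 a2.2.1 a3.2.1 a4.2.1
    (by positivity) (by
      have e : (l + r * b - (r : ℂ) ^ 2 * c) * (l + ((-r : ℝ) : ℂ) * b - ((-r : ℝ) : ℂ) ^ 2 * c) *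
          (l + r * (I * b) - (r : ℂ) ^ 2 * -c) *
          (l + ((-r : ℝ) : ℂ) * (I * b) - ((-r : ℝ) : ℂ) ^ 2 * -c) = l ^ 4 + (r : ℂ) ^ 4 * Q := by
        push_cast
        rw [hQ]
        linear_combination (-(r : ℂ) ^ 2 * b ^ 2 * ((l - r ^ 2 * c) ^ 2 - r ^ 2 * b ^ 2)) * I_mul_I
      have f := congrArg norm e
      rw [norm_mul, norm_mul, norm_mul] at f
      have g : ‖l ^ 4 + (r : ℂ) ^ 4 * Q‖ ≤ ‖l‖ ^ 4 + r ^ 4 * ‖Q‖ := by
        refine (norm_add_le _ _).trans (le_of_eq ?_)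
        rw [norm_pow, norm_mul, norm_pow, norm_real, Real.norm_eq_abs, Even.pow_abs (by decide)]
      have k : (‖l‖ * ‖n‖) ^ 4 * (1 + r ^ 4 * ‖Q‖ / ‖l‖ ^ 4) =
          (‖l‖ ^ 4 + r ^ 4 * ‖Q‖) * ‖n‖ ^ 4 := by
        field_simp
      rw [k]
      refine le_trans (le_of_eq ?_) (mul_le_mul_of_nonneg_right g (by positivity))
      rw [← f]
      ring)
  have b6 : r ^ 4 * ‖Q‖ / ‖l‖ ^ 4 ≤ η / 2 * r ^ 2 := by
    have := mul_le_mul_of_nonneg_right a5 (sq_nonneg r)
    refine le_trans (le_of_eq ?_) this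
    ring
  have b7 : 2 * (η * (‖l‖ * ‖n‖) / 16 * r ^ 2) / (‖l‖ * ‖n‖) = η / 8 * r ^ 2 := by
    rw [div_eq_iff hpos.ne']
    ring
  rw [neg_sq r] at b2 b4
  rw [b7] at b1 b2 b3 b4
  simp only [S4, hI, hd, neg_sq r]
  linarith

theorem two_pt {K : Set (E N)} (hK : K.Nonempty) (x h : E N) (hh : ‖h‖ < infDist x K) :
    Real.log (infDist (x + h) K) + Real.log (infDist (x - h) K) ≤
      2 * Real.log (infDist x K) + ‖h‖ ^ 2 / infDist x K ^ 2 := by
  have hd : 0 < infDist x K := (norm_nonneg _).trans_lt hh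
  have h1 : 0 < infDist (x + h) K := by
    have := infDist_le_infDist_add_dist (s := K) (x := x) (y := x + h)
    rw [dist_self_add_right] at this
    linarith
  have h2 : 0 < infDist (x - h) K := by
    have := infDist_le_infDist_add_dist (s := K) (x := x) (y := x - h)
    rw [dist_self_sub_right] at this
    linarith
  have h3 : infDist (x + h) K ^ 2 + infDist (x - h) K ^ 2 ≤
      2 * infDist x K ^ 2 + 2 * ‖h‖ ^ 2 := by
    have h4 : √((infDist (x + h) K ^ 2 + infDist (x - h) K ^ 2 - 2 * ‖h‖ ^ 2) / 2) ≤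
        infDist x K := by
      refine (le_infDist hK).2 fun q hq => ?_
      rw [Real.sqrt_le_iff]
      refine ⟨dist_nonneg, ?_⟩
      have a1 := pow_le_pow_left₀ h1.le (infDist_le_dist_of_mem (x := x + h) hq) 2
      have a2 := pow_le_pow_left₀ h2.le (infDist_le_dist_of_mem (x := x - h) hq) 2
      have a3 := parallelogram_law_with_norm ℂ (x - q) h
      rw [dist_eq_norm, add_sub_right_comm] at a1
      rw [dist_eq_norm, sub_right_comm] at a2
      rw [dist_eq_norm]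
      nlinarith
    have h5 := (Real.sqrt_le_iff.1 h4).2
    linarith
  have h6 : infDist (x + h) K * infDist (x - h) K ≤
      infDist x K ^ 2 * (1 + ‖h‖ ^ 2 / infDist x K ^ 2) := by
    have e : infDist x K ^ 2 * (1 + ‖h‖ ^ 2 / infDist x K ^ 2) = infDist x K ^ 2 + ‖h‖ ^ 2 := by
      field_simp
    rw [e]
    nlinarith [sq_nonneg (infDist (x + h) K - infDist (x - h) K)]
  have h7 := Real.log_le_log (by positivity) h6
  rw [Real.log_mul h1.ne' h2.ne', Real.log_mul (by positivity) (by positivity),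
    Real.log_pow] at h7
  have h8 := Real.log_le_sub_one_of_pos (show 0 < 1 + ‖h‖ ^ 2 / infDist x K ^ 2 by positivity)
  push_cast at h7
  linarith

theorem av_inner (ρ : E N → ℝ) (z v : E N) : av ρ z v = inner ℂ (nv ρ z) v := by
  simp only [av, nv, PiLp.inner_apply, RCLike.inner_apply, conj_conj]
  exact Finset.sum_congr rfl fun j _ => mul_comm _ _

theorem cv_I (ρ : E N → ℝ) (p w : E N) : ∃ c : ℂ, cv ρ p w = c • nv ρ p ∧
    cv ρ p (I • w) = (-c) • nv ρ p := by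
  refine ⟨_, rfl, ?_⟩
  unfold cv
  congr 1
  rw [← neg_div, neg_neg, neg_div, ← neg_div, ← Finset.sum_neg_distrib]
  congr 1
  refine Finset.sum_congr rfl fun j _ => ?_
  rw [← Finset.sum_neg_distrib]
  refine Finset.sum_congr rfl fun k _ => ?_
  simp only [PiLp.smul_apply, smul_eq_mul]
  linear_combination (-(dz j (dz k (cx ρ)) p * w j * w k)) * I_mul_I

theorem split {n : E N} (hn : n ≠ 0) (v : E N) :
    ∃ (b : ℂ) (w : E N), inner ℂ n w = 0 ∧ v = w + b • n := by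
  refine ⟨inner ℂ n v / inner ℂ n n, v - (inner ℂ n v / inner ℂ n n) • n, ?_, by simp⟩
  rw [inner_sub_right, inner_smul_right, div_mul_cancel₀ _ (inner_self_ne_zero.2 hn), sub_self]

theorem ex_near {ρ : E N → ℝ} {K : Set (E N)} (hK : KS ρ K) {q x : E N} (hq : q ∈ K)
    (hx : inner ℂ q x ≠ 0) : ∃ p ∈ K, dist x p = infDist x K := by
  have hq0 : q ≠ 0 := fun h => hK.cone.1 (h ▸ hq)
  obtain ⟨b, w, hw, rfl⟩ := split hq0 x
  have hb : b ≠ 0 := fun h => hx (by rw [h, zero_smul, add_zero, hw])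
  have h1 : infDist (w + b • q) K < ‖w + b • q‖ := by
    refine (infDist_le_dist_of_mem (hK.cone.2 b hb q hq)).trans_lt ?_
    rw [dist_eq_norm, add_sub_cancel_right]
    refine lt_of_pow_lt_pow_left₀ 2 (norm_nonneg _) ?_
    have h2 : inner ℂ w (b • q) = 0 := by
      rw [inner_smul_right, inner_eq_zero_symm.1 hw, mul_zero]
    have h3 := norm_add_sq_eq_norm_sq_add_norm_sq_of_inner_eq_zero _ _ h2
    have h4 : 0 < ‖b • q‖ := norm_pos_iff.2 (smul_ne_zero hb hq0)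
    nlinarith
  obtain ⟨p, hp, hp'⟩ := hK.closed.exists_infDist_eq_dist (insert_nonempty _ _) (w + b • q)
  have h5 : dist (w + b • q) p ≤ infDist (w + b • q) K :=
    hp' ▸ infDist_le_infDist_of_subset (subset_insert _ _) hK.ne
  rcases hp with rfl | hp
  · rw [dist_zero_right] at h5
    exact absurd h1 (not_lt.2 h5)
  · exact ⟨p, hp, le_antisymm h5 (infDist_le_dist_of_mem hp)⟩

theorem ae_inner {q : E N} (hq : q ≠ 0) : ∀ᵐ x : E N, inner ℂ q x ≠ 0 := by
  have h := Measure.addHaar_submodule (volume : Measure (E N))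
    ((LinearMap.ker (innerSL ℂ q).toLinearMap).restrictScalars ℝ) fun h => by
      have h1 : q ∈ (LinearMap.ker (innerSL ℂ q).toLinearMap).restrictScalars ℝ :=
        h ▸ Submodule.mem_top
      exact hq (inner_self_eq_zero.1 h1)
  rw [ae_iff]
  simp only [not_not]
  exact h

theorem d5a (L : Lv0) : StmtD5a := by
  intro N ρ K hρ hK hPN hT v
  refine ⟨?_, fun x r hr hx => ?_⟩
  · obtain ⟨q, hq⟩ := hK.ne
    filter_upwards [ae_inner (fun h : q = 0 => hK.cone.1 (h ▸ hq))] with x hx hd η hη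
    obtain ⟨p, hp, hp'⟩ := ex_near hK hq hx
    have hp0 : p ≠ 0 := fun h => hK.cone.1 (h ▸ hp)
    have hP := (L.pf N).2.2.2 ρ hρ
    have hn : nv ρ p ≠ 0 := fun h => by
      have h1 := (hP.2.2.1 p hp0).2.2.2.2.2
      have h2 := (hP.2.2.2.1 p (hP.2.2.2.2.2.2 p hp0 (hK.bd p hp)).1).1
      rw [h, norm_zero] at h1
      linarith
    obtain ⟨l, y, hy, hl⟩ := split hn (x - p)
    have hy0 : y = 0 := by
      have h1 := hPN x p hp hp' y (by rw [av_inner, hy])
      rw [hl, inner_add_left, inner_real (l • nv ρ p), inner_smul_left, hy, mul_zero, zero_re,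
        add_zero] at h1
      exact inner_self_eq_zero.1 h1
    rw [hy0, zero_add] at hl
    have hx' : x = p + l • nv ρ p := by rw [← hl]; abel
    have hd' : infDist x K = ‖l‖ * ‖nv ρ p‖ := by rw [← hp', dist_eq_norm, hl, norm_smul]
    obtain ⟨b, w, hw, rfl⟩ := split hn v
    obtain ⟨c, hc, hc'⟩ := cv_I ρ p w
    have h1 := hT p hp w (by rw [av_inner, hw])
    have h2 := hT p hp (I • w) (by rw [av_inner, inner_smul_right, hw, mul_zero])
    rw [hc] at h1
    rw [hc'] at h2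
    rw [hx'] at hd' ⊢
    exact core (by rw [← hd', ← hx']; exact hd) hd' h1 h2 hη
  · have n1 : ‖r • v‖ = r * ‖v‖ := by rw [norm_smul, Real.norm_of_nonneg hr.le]
    have n2 : ‖r • (I • v)‖ = r * ‖v‖ := by
      rw [norm_smul, norm_smul, norm_I, one_mul, Real.norm_of_nonneg hr.le]
    have h1 := two_pt hK.ne x (r • v) (n1 ▸ hx)
    have h2 := two_pt hK.ne x (r • (I • v)) (n2 ▸ hx)
    rw [n1] at h1
    rw [n2] at h2
    simp only [S4, neg_zero, smul_zero, add_zero, neg_smul, ← sub_eq_add_neg]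
    have e : 2 * ‖v‖ ^ 2 / infDist x K ^ 2 * r ^ 2 = 2 * ((r * ‖v‖) ^ 2 / infDist x K ^ 2) := by
      ring
    linarith

end

end Pool.Agent.MP_fcd29e_an.H19
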